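import Pool.Agent.Q264.Uni5

/-!
# The level sets of the smallest univoque base are closed

For `x > 0` let `U x` be the set of the bases `q` in `(1, 2]` in which `x` has exactly one expansion
with digits `0`, `1`, and `qs x` its infimum. For every `q` in `(1, 2]` the level set
`{x > 0 : qs x = q}` is closed in `(0, ∞)`; in particular this holds for the Komornik-Loreti
constant, the smallest element of `U 1`. (The set `U x` is not empty, so the infimum is a genuine
one.)
-/

set_option autoImplicit false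

namespace Pool.Agent.Results.MP_e299c6_nt.LevelSetsClosed

/-- `c` is a `q`-expansion of `x` with digits `0` (`false`) and `1` (`true`); the digit `d_(i+1)` of
the problem is `c i` -/
def IsExp (q x : ℝ) (c : ℕ → Bool) : Prop :=
  x = ∑' i : ℕ, (if c i then (1 : ℝ) else 0) / q ^ (i + 1)

/-- the univoque bases of `x` -/
def U (x : ℝ) : Set ℝ := {q | 1 < q ∧ q ≤ 2 ∧ ∃! c : ℕ → Bool, IsExp q x c}

/-- the smallest univoque base of `x` -/
noncomputable def qs (x : ℝ) : ℝ := sInf (U x)

/-- the level set at height `q`, as a subset of the topological space `(0, ∞)` -/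
def L (q : ℝ) : Set (Set.Ioi (0 : ℝ)) := {x | qs x = q}

lemma isExp_iff {q x : ℝ} {c : ℕ → Bool} : IsExp q x c ↔ Q264.Uni.ev q c = x := by
  unfold IsExp Q264.Uni.ev Q264.Uni.bt
  have : ∀ i : ℕ, (if c i then (1 : ℝ) else 0) / q ^ (i + 1) =
      (if c i then (1 : ℝ) else 0) * (q⁻¹) ^ (i + 1) := by
    intro i; rw [inv_pow, div_eq_mul_inv]
  simp only [this]
  exact eq_comm

lemma U_eq (x : ℝ) : U x = Q264.Uni.UU x := by
  ext q
  rw [Q264.Uni.UU_iff]
  unfold U
  simp only [Set.mem_setOf_eq, isExp_iff]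

lemma qs_eq (x : ℝ) : qs x = Q264.Uni.qs x := by
  unfold qs Q264.Uni.qs
  rw [U_eq]

lemma closed {q : ℝ} (hq : 1 < q) (hq2 : q ≤ 2) : IsClosed (L q) := by
  refine IsSeqClosed.isClosed fun xs x hxs hlim => ?_
  show qs x = q
  rw [qs_eq]
  refine Q264.Uni.level_closed hq hq2 (xs := fun k => (xs k : ℝ)) (fun k => (xs k).2)
    (fun k => ?_) x.2 ?_
  · rw [← qs_eq]; exact hxs k
  · exact (continuous_subtype_val.tendsto x).comp hlim

theorem result :
    (∀ x : ℝ, 0 < x → (U x).Nonempty) ∧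
    (∀ q : ℝ, 1 < q → q ≤ 2 → IsClosed (L q)) ∧
    ∀ qKL : ℝ, IsLeast (U 1) qKL → IsClosed (L qKL) := by
  refine ⟨fun x hx => ?_, fun q h1 h2 => closed h1 h2, fun q hq => closed hq.1.1 hq.1.2.1⟩
  obtain ⟨q, hq⟩ := Q264.Uni.UU_nonempty hx
  exact ⟨q, by rw [U_eq]; exact hq⟩

end Pool.Agent.Results.MP_e299c6_nt.LevelSetsClosed
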